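import Pool.Agent.helper58.FI.SpecC

/-! # Row fi:FMX (MP_baa4d7_al): the largest term of a normal chain -/

set_option autoImplicit false

namespace Pool.Agent.FI

open Pool.Agent.helper58.DC Pool.Agent.DI Pool.Agent.GR Pool.Agent.OB Pool.Agent.DR

theorem FMX : FMX_stmt := by
  intro Γ _ _ p C hC hne
  obtain ⟨P, hP, hmax⟩ := C.exists_maximal ⟨⊥, hC.ch.mem⟩
  have hle : ∀ Q ∈ C, Q ≤ P := by
    intro Q hQ
    by_cases h : Q = P
    · rw [h]
    · rcases hC.ch.chain (Finset.mem_coe.2 hQ) (Finset.mem_coe.2 hP) h with h' | h'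
      · exact h'
      · exact hmax hQ h'
  have hnz : P ≠ ⊥ := by
    intro h
    apply hne
    ext Q
    rw [Finset.mem_singleton]
    constructor
    · intro hQ
      have := hle Q hQ
      rw [h] at this
      exact le_bot_iff.1 this
    · intro hQ
      rw [hQ]
      exact hC.ch.mem
  refine ⟨P, hP, hnz, hC.ch.pg P hP, hle, ?_, ?_, ?_⟩
  · unfold nrm
    exact le_iInf₂ fun Q hQ => hC.nm Q hQ P hP (hle Q hQ)
  · unfold nrm
    exact iInf₂_le P hP
  · unfold nrm
    refine le_iInf₂ fun Q hQ => ?_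
    refine le_trans ?_ (Subgroup.centralizer_le_normalizer (Q : Set Γ))
    exact Subgroup.centralizer_le (SetLike.coe_subset_coe.2 (hle Q hQ))

end Pool.Agent.FI
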